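import Pool.Agent.U263.Gun.Board

set_option autoImplicit false
set_option maxRecDepth 100000

/-!
Pearce's formula for the maximum number of holes in a gunport configuration fails on the board
with 16 rows and 14 columns: the maximum is 72, the formula gives 74.
-/

namespace Pool.Agent.Results.MP_290120_co.Board16x14

open Pool.Agent.U263.Gun

/-- the dominoes of a configuration with 72 holes -/
def dl : List ((ℕ × ℕ) × (ℕ × ℕ)) :=
  [((1, 2), (1, 3)), ((1, 5), (2, 5)), ((1, 7), (2, 7)), ((1, 9), (2, 9)), ((1, 11), (2, 11)),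
   ((1, 13), (2, 13)), ((2, 1), (3, 1)), ((2, 3), (2, 4)), ((2, 6), (3, 6)), ((2, 8), (3, 8)),
   ((2, 10), (3, 10)), ((2, 12), (3, 12)), ((2, 14), (3, 14)), ((3, 2), (4, 2)),
   ((3, 4), (4, 4)), ((4, 3), (5, 3)), ((4, 5), (5, 5)), ((4, 7), (5, 7)), ((4, 9), (5, 9)),
   ((4, 11), (5, 11)), ((4, 13), (5, 13)), ((5, 1), (6, 1)), ((5, 6), (6, 6)), ((5, 8), (6, 8)),
   ((5, 10), (6, 10)), ((5, 12), (6, 12)), ((5, 14), (6, 14)), ((6, 2), (7, 2)),
   ((6, 4), (7, 4)), ((7, 3), (8, 3)), ((7, 5), (8, 5)), ((7, 7), (8, 7)), ((7, 9), (8, 9)),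
   ((7, 11), (8, 11)), ((7, 13), (8, 13)), ((8, 1), (9, 1)), ((8, 6), (9, 6)), ((8, 8), (9, 8)),
   ((8, 10), (9, 10)), ((8, 12), (9, 12)), ((8, 14), (9, 14)), ((9, 2), (10, 2)),
   ((9, 4), (10, 4)), ((10, 3), (11, 3)), ((10, 5), (11, 5)), ((10, 7), (11, 7)),
   ((10, 9), (11, 9)), ((10, 11), (11, 11)), ((10, 13), (11, 13)), ((11, 1), (12, 1)),
   ((11, 6), (12, 6)), ((11, 8), (12, 8)), ((11, 10), (12, 10)), ((11, 12), (12, 12)),
   ((11, 14), (12, 14)), ((12, 2), (13, 2)), ((12, 4), (13, 4)), ((13, 3), (14, 3)),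
   ((13, 5), (14, 5)), ((13, 7), (14, 7)), ((13, 9), (14, 9)), ((13, 11), (14, 11)),
   ((13, 13), (14, 13)), ((14, 1), (15, 1)), ((14, 6), (15, 6)), ((14, 8), (15, 8)),
   ((14, 10), (15, 10)), ((14, 12), (15, 12)), ((14, 14), (15, 14)), ((15, 2), (16, 2)),
   ((15, 3), (15, 4)), ((16, 4), (16, 5)), ((16, 7), (16, 8)), ((16, 9), (16, 10)),
   ((16, 11), (16, 12)), ((16, 13), (16, 14))]

/-- its holes -/
def hl : List (ℕ × ℕ) :=
  [(1, 1), (1, 4), (1, 6), (1, 8), (1, 10), (1, 12), (1, 14), (2, 2), (3, 3), (3, 5), (3, 7),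
   (3, 9), (3, 11), (3, 13), (4, 1), (4, 6), (4, 8), (4, 10), (4, 12), (4, 14), (5, 2), (5, 4),
   (6, 3), (6, 5), (6, 7), (6, 9), (6, 11), (6, 13), (7, 1), (7, 6), (7, 8), (7, 10), (7, 12),
   (7, 14), (8, 2), (8, 4), (9, 3), (9, 5), (9, 7), (9, 9), (9, 11), (9, 13), (10, 1), (10, 6),
   (10, 8), (10, 10), (10, 12), (10, 14), (11, 2), (11, 4), (12, 3), (12, 5), (12, 7), (12, 9),
   (12, 11), (12, 13), (13, 1), (13, 6), (13, 8), (13, 10), (13, 12), (13, 14), (14, 2), (14, 4),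
   (15, 5), (15, 7), (15, 9), (15, 11), (15, 13), (16, 1), (16, 3), (16, 6)]

/-- the configuration -/
def S0 : Finset (Finset (ℕ × ℕ)) := (dl.map (fun e => {e.1, e.2})).toFinset

instance : DecidableRel Adj := fun p q => by unfold Adj; infer_instance

theorem mem_S0 {d : Finset (ℕ × ℕ)} : d ∈ S0 ↔ ∃ e ∈ dl, d = {e.1, e.2} := by
  simp only [S0, List.mem_toFinset, List.mem_map]
  constructor
  · rintro ⟨e, he, rfl⟩; exact ⟨e, he, rfl⟩
  · rintro ⟨e, he, rfl⟩; exact ⟨e, he, rfl⟩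

theorem c1 : ∀ e ∈ dl, Adj e.1 e.2 ∧ (1 ≤ e.1.1 ∧ e.1.1 ≤ 16 ∧ 1 ≤ e.1.2 ∧ e.1.2 ≤ 14) ∧
    (1 ≤ e.2.1 ∧ e.2.1 ≤ 16 ∧ 1 ≤ e.2.2 ∧ e.2.2 ≤ 14) := by
  decide +kernel

theorem c2 : ∀ e ∈ dl, ∀ f ∈ dl, e = f ∨ (e.1 ≠ f.1 ∧ e.1 ≠ f.2 ∧ e.2 ≠ f.1 ∧ e.2 ≠ f.2) := by
  decide +kernel

theorem c3 : ∀ i ∈ Finset.range 17, ∀ j ∈ Finset.range 15, i = 0 ∨ j = 0 ∨ (i, j) ∈ hl ∨
    ∃ e ∈ dl, (i, j) = e.1 ∨ (i, j) = e.2 := by
  decide +kernel

theorem c4 : ∀ p ∈ hl, ∀ q ∈ hl, ¬ Adj p q := by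
  decide +kernel

theorem c5 : dl.Nodup := by
  decide +kernel

theorem disj0 {e f : (ℕ × ℕ) × (ℕ × ℕ)} (he : e ∈ dl) (hf : f ∈ dl) (hne : e ≠ f) :
    Disjoint ({e.1, e.2} : Finset (ℕ × ℕ)) {f.1, f.2} := by
  rcases c2 e he f hf with h | ⟨h1, h2, h3, h4⟩
  · exact absurd h hne
  · rw [Finset.disjoint_left]
    intro p hp hq
    simp only [Finset.mem_insert, Finset.mem_singleton] at hp hq
    rcases hp with rfl | rfl <;> rcases hq with h | h <;> contradiction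

theorem holes_sub {p : ℕ × ℕ} (hp : p ∈ holes 16 14 S0) : p ∈ hl := by
  obtain ⟨i, j⟩ := p
  simp only [holes, Finset.mem_sdiff, Finset.mem_biUnion, id, not_exists, not_and] at hp
  obtain ⟨hb, hn⟩ := hp
  have hb' := mem_board.1 hb
  rcases c3 i (Finset.mem_range.2 (by omega)) j (Finset.mem_range.2 (by omega)) with
    h | h | h | ⟨e, he, h⟩
  · omega
  · omega
  · exact h
  · exfalso
    apply hn {e.1, e.2} (mem_S0.2 ⟨e, he, rfl⟩)
    simp only [Finset.mem_insert, Finset.mem_singleton]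
    exact h

theorem isG : IsGunport 16 14 S0 where
  domino := by
    intro d hd
    obtain ⟨e, he, rfl⟩ := mem_S0.1 hd
    exact ⟨e.1, e.2, (c1 e he).1, rfl⟩
  inside := by
    intro d hd
    obtain ⟨e, he, rfl⟩ := mem_S0.1 hd
    intro p hp
    simp only [Finset.mem_insert, Finset.mem_singleton] at hp
    rcases hp with rfl | rfl
    · exact mem_board.2 (c1 e he).2.1
    · exact mem_board.2 (c1 e he).2.2
  disj := by
    intro d hd d' hd' hne
    obtain ⟨e, he, rfl⟩ := mem_S0.1 hd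
    obtain ⟨f, hf, rfl⟩ := mem_S0.1 hd'
    exact disj0 he hf (fun h => hne (by rw [h]))
  isolated := fun p hp q hq => c4 p (holes_sub hp) q (holes_sub hq)

theorem cardS0 : S0.card = 76 := by
  have h1 : (dl.map (fun e => ({e.1, e.2} : Finset (ℕ × ℕ)))).Nodup := by
    apply List.Nodup.map_on _ c5
    intro e he f hf hef
    by_contra hne
    have h2 := disj0 he hf hne
    rw [← hef] at h2
    have h3 := disjoint_self.1 h2
    have h4 : e.1 ∈ ({e.1, e.2} : Finset (ℕ × ℕ)) := by simp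
    rw [h3] at h4
    simp at h4
  unfold S0
  rw [List.toFinset_card_of_nodup h1, List.length_map]
  rfl

theorem G72 : G 16 14 = 72 := by
  apply IsGreatest.csSup_eq
  refine ⟨⟨S0, isG, ?_⟩, ?_⟩
  · have := isG.card_add
    rw [cardS0] at this
    omega
  · rintro h ⟨S, hS, rfl⟩
    exact le72 hS

/-- The maximum number of holes on the board with 16 rows and 14 columns is 72, and so it is not
true that `G m n` is given by the formula for all `m`, `n ≥ 2` not divisible by 3. -/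
theorem result : G 16 14 = 72 ∧
    ¬ ∀ m n : ℕ, 2 ≤ m → 2 ≤ n → ¬ 3 ∣ m → ¬ 3 ∣ n →
      G m n = if m % 3 = n % 3 then (m * n - 4) / 3 else (m * n - 2) / 3 := by
  refine ⟨G72, fun h => ?_⟩
  have := h 16 14 (by norm_num) (by norm_num) (by norm_num) (by norm_num)
  rw [G72] at this
  norm_num at this

end Pool.Agent.Results.MP_290120_co.Board16x14
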